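import Mathlib
import Pool.Agent.Lib.MP_64d474_lc.RankTools
import Pool.Agent.Lib.MP_64d474_lc.BB91.Split

/-!
Improving directions: if the rank of `A c` is at least `k` below the rank of `A x`, then some
form of degree `D` with `D k ≤ rank (A c) + k` in the span of the `D × D` minors of a compression
of `A` is nonzero, and every `y` where it does not vanish improves the rank.
-/

namespace Pool.Agent.Lib.MP_64d474_lc.BB91

open Matrix Polynomial Module

variable {F : Type*} [Field F]

section pencil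

/-- the determinant of the pencil `G + X H` -/
noncomputable def pen {n : Type*} [Fintype n] [DecidableEq n] (G H : Matrix n n F) : F[X] :=
  ((X : F[X]) • H.map C + G.map C).det

theorem pen_eval {n : Type*} [Fintype n] [DecidableEq n] (G H : Matrix n n F) (t : F) :
    (pen G H).eval t = (G + t • H).det := by
  have h := (Polynomial.evalRingHom t).map_det ((X : F[X]) • H.map C + G.map C)
  rw [Polynomial.coe_evalRingHom] at h
  rw [pen, h]
  congr 1
  ext i j
  simp [add_comm]
  exact mul_comm _ _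

theorem pen_natDegree {n : Type*} [Fintype n] [DecidableEq n] (G H : Matrix n n F) :
    (pen G H).natDegree ≤ Fintype.card n :=
  Polynomial.natDegree_det_X_add_C_le H G

theorem pen_coeff_zero {n : Type*} [Fintype n] [DecidableEq n] (G H : Matrix n n F) :
    (pen G H).coeff 0 = G.det := by
  rw [Polynomial.coeff_zero_eq_eval_zero, pen_eval, zero_smul, add_zero]

end pencil

section ring

variable {R : Type*} [CommRing R]

/-- Sylvester: the Schur complement without denominators. -/
theorem sylvester {s k : Type*} [Fintype s] [DecidableEq s] [Fintype k] [DecidableEq k]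
    (M11 : Matrix s s R) (M12 : Matrix s k R) (M21 : Matrix k s R) (M22 : Matrix k k R) :
    (fromBlocks M11 M12 M21 M22).det * M11.det ^ Fintype.card k =
      M11.det * (M11.det • M22 - M21 * M11.adjugate * M12).det := by
  have h1 : fromBlocks M11 M12 M21 M22 *
      fromBlocks (1 : Matrix s s R) (-(M11.adjugate * M12)) 0 (M11.det • (1 : Matrix k k R)) =
      fromBlocks M11 0 M21 (M11.det • M22 - M21 * M11.adjugate * M12) := by
    rw [fromBlocks_multiply]
    congr 1
    · simp
    · rw [Matrix.mul_neg, ← Matrix.mul_assoc, Matrix.mul_adjugate, Matrix.mul_smul, Matrix.mul_one,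
        Matrix.smul_mul, Matrix.one_mul]
      simp
    · simp
    · rw [Matrix.mul_neg, Matrix.mul_smul, Matrix.mul_one, ← Matrix.mul_assoc]
      abel
  have h2 := congrArg Matrix.det h1
  rw [Matrix.det_mul, Matrix.det_fromBlocks_zero₂₁, Matrix.det_fromBlocks_zero₁₂, Matrix.det_one,
    one_mul, Matrix.det_smul, Matrix.det_one, mul_one] at h2
  exact h2

end ring

section extend

variable {ι : Type*} [Fintype ι]

/-- An invertible compression of size `s` extends to one of size `s + k`. -/
theorem exists_extend (B : Matrix ι ι F) {s k : ℕ} (P0 : Matrix (Fin s) ι F)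
    (Q0 : Matrix ι (Fin s) F) (h0 : (P0 * B * Q0).det ≠ 0) (hB : s + k ≤ B.rank) :
    ∃ (P1 : Matrix (Fin k) ι F) (Q1 : Matrix ι (Fin k) F),
      (fromBlocks (P0 * B * Q0) (P0 * B * Q1) (P1 * B * Q0) (P1 * B * Q1)).det ≠ 0 := by
  classical
  have h1 := LinearMap.finrank_range_add_finrank_ker P0.mulVecLin
  have h2 : finrank F (LinearMap.range P0.mulVecLin) ≤ s := by
    refine (Submodule.finrank_le _).trans ?_
    simp
  have h3 : finrank F (LinearMap.range B.mulVecLin) = B.rank := rfl
  have h5 := Submodule.finrank_sup_add_finrank_inf_eq (LinearMap.range B.mulVecLin)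
    (LinearMap.ker P0.mulVecLin)
  have h6 := Submodule.finrank_le (LinearMap.range B.mulVecLin ⊔ LinearMap.ker P0.mulVecLin)
  have h4 : k ≤ finrank F ↥(LinearMap.range B.mulVecLin ⊓ LinearMap.ker P0.mulVecLin) := by
    omega
  obtain ⟨w, hw⟩ := exists_linearIndependent_of_le_finrank (R := F)
    (M := ↥(LinearMap.range B.mulVecLin ⊓ LinearMap.ker P0.mulVecLin)) h4
  have hx : ∀ i, ∃ u : ι → F, B *ᵥ u = (w i : ι → F) := by
    intro i
    obtain ⟨u, hu⟩ := (w i).2.1
    exact ⟨u, hu⟩
  choose u hu using hx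
  have hker : ∀ i, P0 *ᵥ (w i : ι → F) = 0 := by
    intro i
    exact (w i).2.2
  let Q1 : Matrix ι (Fin k) F := Matrix.of fun a i => u i a
  have hBQ : ∀ y : Fin k → F, (B * Q1) *ᵥ y = ∑ i, y i • (w i : ι → F) := by
    intro y
    rw [← Matrix.mulVec_mulVec]
    have : Q1 *ᵥ y = ∑ i, y i • u i := by
      funext a
      simp [Q1, mulVec, dotProduct, mul_comm]
    rw [this, Matrix.mulVec_sum]
    refine Finset.sum_congr rfl fun i _ => ?_
    rw [mulVec_smul, hu]
  have hPBQ1 : P0 * B * Q1 = 0 := by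
    apply Matrix.ext_of_mulVec_single
    intro i
    rw [Matrix.mul_assoc, ← Matrix.mulVec_mulVec, hBQ, Matrix.mulVec_sum, Matrix.zero_mulVec]
    refine Finset.sum_eq_zero fun j _ => ?_
    rw [mulVec_smul, hker, smul_zero]
  let L := Matrix.fromCols (B * Q0) (B * Q1)
  have hinj : Function.Injective L.mulVecLin := by
    rw [injective_iff_map_eq_zero]
    intro y hy
    rw [Matrix.mulVecLin_apply] at hy
    have hy' : (B * Q0) *ᵥ (y ∘ Sum.inl) + (B * Q1) *ᵥ (y ∘ Sum.inr) = 0 := by
      rw [← Matrix.fromCols_mulVec]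
      exact hy
    have h5 : (P0 * B * Q0) *ᵥ (y ∘ Sum.inl) = 0 := by
      have h6 := congrArg (fun v => P0 *ᵥ v) hy'
      simp only [Matrix.mulVec_add, Matrix.mulVec_mulVec, Matrix.mulVec_zero] at h6
      rw [← Matrix.mul_assoc, ← Matrix.mul_assoc, hPBQ1, Matrix.zero_mulVec, add_zero] at h6
      exact h6
    have h7 : y ∘ Sum.inl = 0 := Matrix.eq_zero_of_mulVec_eq_zero h0 h5
    rw [h7, Matrix.mulVec_zero, zero_add, hBQ] at hy'
    have hli : LinearIndependent F (fun i => (w i : ι → F)) :=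
      hw.map' (LinearMap.range B.mulVecLin ⊓ LinearMap.ker P0.mulVecLin).subtype
        (Submodule.ker_subtype _)
    have h8 := Fintype.linearIndependent_iff.mp hli (y ∘ Sum.inr) hy'
    funext i
    rcases i with i | i
    · exact congrFun h7 i
    · exact h8 i
  obtain ⟨g, hg⟩ := L.mulVecLin.exists_leftInverse_of_injective (LinearMap.ker_eq_bot.mpr hinj)
  have hgL : LinearMap.toMatrix' g * L = 1 := by
    have h1 : LinearMap.toMatrix' g * L = LinearMap.toMatrix' (g ∘ₗ L.mulVecLin) := by
      rw [LinearMap.toMatrix'_comp]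
      congr 1
      exact (LinearMap.toMatrix'_toLin' L).symm
    rw [h1, hg, LinearMap.toMatrix'_id]
  let P1 : Matrix (Fin k) ι F := Matrix.of fun i a => LinearMap.toMatrix' g (Sum.inr i) a
  have hP0 : P1 * B * Q0 = 0 := by
    ext i j
    have := congrFun (congrFun hgL (Sum.inr i)) (Sum.inl j)
    rw [Matrix.one_apply_ne (by simp)] at this
    rw [Matrix.mul_assoc, Matrix.zero_apply, ← this]
    rfl
  have hP1 : P1 * B * Q1 = 1 := by
    ext i j
    have := congrFun (congrFun hgL (Sum.inr i)) (Sum.inr j)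
    rw [Matrix.mul_assoc]
    rw [show (1 : Matrix (Fin k) (Fin k) F) i j = (1 : Matrix (Fin s ⊕ Fin k) (Fin s ⊕ Fin k) F)
      (Sum.inr i) (Sum.inr j) by simp [Matrix.one_apply], ← this]
    rfl
  refine ⟨P1, Q1, ?_⟩
  rw [hPBQ1, hP0, hP1, Matrix.det_fromBlocks_zero₂₁, Matrix.det_one, mul_one]
  exact h0

end extend

section main

variable {V : Type*} [AddCommGroup V] [Module F V] {ι : Type*} [Fintype ι]

/-- The compression `P A Q` of a linear map into matrices. -/
def comp (A : V →ₗ[F] Matrix ι ι F) {N : ℕ} (P : Matrix (Fin N) ι F) (Q : Matrix ι (Fin N) F) :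
    V →ₗ[F] Matrix (Fin N) (Fin N) F where
  toFun v := P * A v * Q
  map_add' u v := by rw [map_add, Matrix.mul_add, Matrix.add_mul]
  map_smul' a v := by
    rw [map_smul, Matrix.mul_smul, Matrix.smul_mul, RingHom.id_apply]

theorem comp_apply (A : V →ₗ[F] Matrix ι ι F) {N : ℕ} (P : Matrix (Fin N) ι F)
    (Q : Matrix ι (Fin N) F) (v : V) : comp A P Q v = P * A v * Q := rfl

/-- `(v, a) ↦ L v + a G` -/
def ext {N : ℕ} (G : Matrix (Fin N) (Fin N) F) (L : V →ₗ[F] Matrix (Fin N) (Fin N) F) :
    (V × F) →ₗ[F] Matrix (Fin N) (Fin N) F where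
  toFun p := L p.1 + p.2 • G
  map_add' u v := by
    simp only [Prod.fst_add, Prod.snd_add, map_add, add_smul]
    abel
  map_smul' a v := by
    simp only [Prod.smul_fst, Prod.smul_snd, map_smul, smul_eq_mul, mul_smul, smul_add,
      RingHom.id_apply]

omit [Fintype ι] in
theorem ext_restrict {N : ℕ} (G : Matrix (Fin N) (Fin N) F)
    (L : V →ₗ[F] Matrix (Fin N) (Fin N) F) (j : ℕ) (f : V × F → F)
    (hf : f ∈ minors (ext G L) j) : (fun y : V => f (y, 0)) ∈ minors L j := by
  refine Submodule.span_induction (p := fun f _ => (fun y : V => f (y, 0)) ∈ minors L j)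
    ?_ ?_ ?_ ?_ hf
  · rintro _ ⟨⟨R, C⟩, rfl⟩
    have := minor_mem L j R C
    simpa [ext] using this
  · exact Submodule.zero_mem _
  · intro f f' _ _ h h'
    exact Submodule.add_mem _ h h'
  · intro a f _ h
    exact Submodule.smul_mem _ a h

omit [Fintype ι] in
/-- The coefficients of the pencil at `G` in the direction `y` are combinations of minors. -/
theorem coeff_mem [CharZero F] {N : ℕ} (G : Matrix (Fin N) (Fin N) F)
    (L : V →ₗ[F] Matrix (Fin N) (Fin N) F) (j : ℕ)
    (hj : j ≤ N) : (fun y => (pen G (L y)).coeff j) ∈ minors L j := by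
  have h0 : (fun v => (ext G L v).det) ∈ minors (ext G L) N := by
    have := minor_mem (ext G L) N id id
    simpa using this
  obtain ⟨h, h1, -, h3⟩ := split_exists (ext G L) N _ h0
  have h4 : (fun y => (pen G (L y)).coeff j) = fun y => h j (0, 1) (y, 0) := by
    funext y
    have h5 : pen G (L y) = ∑ i ∈ Finset.range (N + 1), C (h i (0, 1) (y, 0)) * X ^ i := by
      apply Polynomial.funext
      intro t
      rw [pen_eval]
      have h6 := h1 (0, 1) (y, 0) t
      have h7 : ext G L ((0, 1) + t • (y, 0)) = G + t • L y := by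
        simp [ext, add_comm]
      simp only [h7] at h6
      rw [h6]
      simp only [Polynomial.eval_finsetSum, Polynomial.eval_mul, Polynomial.eval_pow,
        Polynomial.eval_X, Polynomial.eval_C]
      refine Finset.sum_congr rfl fun i _ => by ring
    rw [h5]
    simp only [Polynomial.finsetSum_coeff, Polynomial.coeff_C_mul_X_pow]
    rw [Finset.sum_eq_single j]
    · simp
    · intro i _ hi
      simp [Ne.symm hi]
    · intro hb
      exact absurd (Finset.mem_range.mpr (by omega)) hb
  rw [h4]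
  exact ext_restrict G L j _ (h3 j hj (0, 1))

omit [Fintype ι] in
theorem pen_submatrix {m n : Type*} [Fintype m] [DecidableEq m] [Fintype n] [DecidableEq n]
    (G H : Matrix n n F) (e : m ≃ n) : pen (G.submatrix e e) (H.submatrix e e) = pen G H := by
  unfold pen
  rw [← Matrix.det_submatrix_equiv_self e]
  rfl

omit [Fintype ι] in
theorem pen_blocks {s k : Type*} [Fintype s] [DecidableEq s] [Fintype k] [DecidableEq k]
    (G11 H11 : Matrix s s F) (G12 H12 : Matrix s k F) (G21 H21 : Matrix k s F)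
    (G22 H22 : Matrix k k F) :
    pen (fromBlocks G11 G12 G21 G22) (fromBlocks H11 H12 H21 H22) =
      (fromBlocks ((X : F[X]) • H11.map C + G11.map C) ((X : F[X]) • H12.map C + G12.map C)
        ((X : F[X]) • H21.map C + G21.map C) ((X : F[X]) • H22.map C + G22.map C)).det := by
  unfold pen
  congr 1
  ext i j
  rcases i with i | i <;> rcases j with j | j <;> simp

/-- all coefficients below `D` of all pencils vanish: the bordered minors are divisible -/
theorem border_dvd (Gc Gy : Matrix ι ι F) {s k : ℕ} (D : ℕ)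
    (hmin : ∀ j < D, ∀ (P : Matrix (Fin (s + 1)) ι F) (Q : Matrix ι (Fin (s + 1)) F),
      (pen (P * Gc * Q) (P * Gy * Q)).coeff j = 0)
    (P0 : Matrix (Fin s) ι F) (Q0 : Matrix ι (Fin s) F)
    (P1 : Matrix (Fin k) ι F) (Q1 : Matrix ι (Fin k) F) (i j : Fin k) :
    (X : F[X]) ^ D ∣ pen
      (fromBlocks (P0 * Gc * Q0) (Matrix.of fun a (_ : Fin 1) => (P0 * Gc * Q1) a j)
        (Matrix.of fun (_ : Fin 1) b => (P1 * Gc * Q0) i b)
        (Matrix.of fun (_ : Fin 1) (_ : Fin 1) => (P1 * Gc * Q1) i j))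
      (fromBlocks (P0 * Gy * Q0) (Matrix.of fun a (_ : Fin 1) => (P0 * Gy * Q1) a j)
        (Matrix.of fun (_ : Fin 1) b => (P1 * Gy * Q0) i b)
        (Matrix.of fun (_ : Fin 1) (_ : Fin 1) => (P1 * Gy * Q1) i j)) := by
  rw [Polynomial.X_pow_dvd_iff]
  intro l hl
  let e : Fin (s + 1) ≃ Fin s ⊕ Fin 1 := finSumFinEquiv.symm
  let P : Matrix (Fin s ⊕ Fin 1) ι F := Matrix.of (Sum.elim P0 (fun _ => P1 i))
  let Q : Matrix ι (Fin s ⊕ Fin 1) F := Matrix.of fun a => Sum.elim (Q0 a) (fun _ => Q1 a j)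
  have h1 := hmin l hl (P.submatrix e id) (Q.submatrix id e)
  have h2 : ∀ G : Matrix ι ι F, P.submatrix e id * G * Q.submatrix id e =
      (fromBlocks (P0 * G * Q0) (Matrix.of fun a (_ : Fin 1) => (P0 * G * Q1) a j)
        (Matrix.of fun (_ : Fin 1) b => (P1 * G * Q0) i b)
        (Matrix.of fun (_ : Fin 1) (_ : Fin 1) => (P1 * G * Q1) i j)).submatrix e e := by
    intro G
    have h3 : P.submatrix e id * G * Q.submatrix id e = (P * G * Q).submatrix e e := by
      ext a b
      simp [Matrix.mul_apply]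
    rw [h3]
    congr 1
    ext a b
    rcases a with a | a <;> rcases b with b | b <;> simp [P, Q, Matrix.mul_apply] <;> rfl
  rw [h2, h2, pen_submatrix] at h1
  exact h1

omit [AddCommGroup V] [Module F V] in
theorem degree_bound [CharZero F] (G0 H0 : Matrix ι ι F) (s k : ℕ)
    (hs : s ≤ G0.rank) (hx : s + k ≤ (G0 + H0).rank) (D : ℕ)
    (hmin : ∀ j < D, ∀ (P : Matrix (Fin (s + 1)) ι F) (Q : Matrix ι (Fin (s + 1)) F),
      (pen (P * G0 * Q) (P * H0 * Q)).coeff j = 0) :
    D * k ≤ s + k := by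
  obtain ⟨P0, Q0, hPQ0⟩ := exists_minor_of_le_rank G0 s hs
  obtain ⟨P2, Q2, hPQ2⟩ := exists_minor_of_le_rank (G0 + H0) (s + k) hx
  have hmul : ∀ {p q : ℕ} (P : Matrix (Fin p) ι F) (Q : Matrix ι (Fin q) F) (t : F),
      P * (G0 + t • H0) * Q = P * G0 * Q + t • (P * H0 * Q) := by
    intro p q P Q t
    rw [Matrix.mul_add, Matrix.add_mul, Matrix.mul_smul, Matrix.smul_mul]
  have hev : ∀ (N : ℕ) (P : Matrix (Fin N) ι F) (Q : Matrix ι (Fin N) F) (t : F),
      (pen (P * G0 * Q) (P * H0 * Q)).eval t = (P * (G0 + t • H0) * Q).det := by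
    intro N P Q t
    rw [pen_eval, hmul]
  -- a good value
  obtain ⟨e, he⟩ : ∃ e : F, ((pen (P0 * G0 * Q0) (P0 * H0 * Q0)) *
      (pen (P2 * G0 * Q2) (P2 * H0 * Q2))).eval e ≠ 0 := by
    by_contra hcon
    push Not at hcon
    have hz : (pen (P0 * G0 * Q0) (P0 * H0 * Q0)) * (pen (P2 * G0 * Q2) (P2 * H0 * Q2)) = 0 := by
      apply Polynomial.funext
      intro t
      rw [hcon t, Polynomial.eval_zero]
    rcases mul_eq_zero.mp hz with h | h
    · have := hev s P0 Q0 0
      rw [h, Polynomial.eval_zero, zero_smul, add_zero] at this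
      exact hPQ0 this.symm
    · have := hev (s + k) P2 Q2 1
      rw [h, Polynomial.eval_zero, one_smul] at this
      exact hPQ2 this.symm
  rw [Polynomial.eval_mul, hev, hev] at he
  have he1 := left_ne_zero_of_mul he
  have he2 := right_ne_zero_of_mul he
  have hrank := le_rank_of_minor _ _ P2 Q2 he2
  obtain ⟨P1, Q1, hPQ⟩ := exists_extend (G0 + e • H0) P0 Q0 he1 hrank
  -- the blocks
  let G : Matrix ι ι F → Matrix (Fin s ⊕ Fin k) (Fin s ⊕ Fin k) F := fun G =>
    fromBlocks (P0 * G * Q0) (P0 * G * Q1) (P1 * G * Q0) (P1 * G * Q1)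
  have hG : ∀ t : F, G G0 + t • G H0 = G (G0 + t • H0) := by
    intro t
    simp only [G, hmul, fromBlocks_smul, fromBlocks_add]
  have hne : pen (G G0) (G H0) ≠ 0 := by
    intro h
    have h1 := pen_eval (G G0) (G H0) e
    rw [h, Polynomial.eval_zero, hG] at h1
    exact hPQ h1.symm
  have hdeg := pen_natDegree (G G0) (G H0)
  rw [Fintype.card_sum, Fintype.card_fin, Fintype.card_fin] at hdeg
  -- polynomial blocks
  set M11 := (X : F[X]) • (P0 * H0 * Q0).map C + (P0 * G0 * Q0).map C with hM11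
  set M12 := (X : F[X]) • (P0 * H0 * Q1).map C + (P0 * G0 * Q1).map C with hM12
  set M21 := (X : F[X]) • (P1 * H0 * Q0).map C + (P1 * G0 * Q0).map C with hM21
  set M22 := (X : F[X]) • (P1 * H0 * Q1).map C + (P1 * G0 * Q1).map C with hM22
  have hpen : pen (G G0) (G H0) = (fromBlocks M11 M12 M21 M22).det :=
    pen_blocks _ _ _ _ _ _ _ _
  have hd0 : M11.det ≠ 0 := by
    intro h
    have h1 := pen_coeff_zero (P0 * G0 * Q0) (P0 * H0 * Q0)
    change (M11.det).coeff 0 = _ at h1
    rw [h, Polynomial.coeff_zero] at h1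
    exact hPQ0 h1.symm
  have hXd : ¬ (X : F[X]) ∣ M11.det := by
    rw [Polynomial.X_dvd_iff]
    have h1 := pen_coeff_zero (P0 * G0 * Q0) (P0 * H0 * Q0)
    change (M11.det).coeff 0 = _ at h1
    rw [h1]
    exact hPQ0
  set N := M11.det • M22 - M21 * M11.adjugate * M12 with hN
  have hdvd : ∀ i j, (X : F[X]) ^ D ∣ N i j := by
    intro i j
    have h1 := border_dvd G0 H0 D hmin P0 Q0 P1 Q1 i j
    rw [pen_blocks] at h1
    have h2 := sylvester M11 (Matrix.of fun a (_ : Fin 1) => M12 a j)
      (Matrix.of fun (_ : Fin 1) b => M21 i b) (Matrix.of fun (_ : Fin 1) (_ : Fin 1) => M22 i j)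
    rw [Fintype.card_fin, pow_one, mul_comm] at h2
    have h3 := mul_left_cancel₀ hd0 h2
    have h4 : (fromBlocks M11 (Matrix.of fun a (_ : Fin 1) => M12 a j)
      (Matrix.of fun (_ : Fin 1) b => M21 i b)
      (Matrix.of fun (_ : Fin 1) (_ : Fin 1) => M22 i j)).det = N i j := by
      rw [h3, Matrix.det_fin_one]
      simp only [hN, Matrix.sub_apply, Matrix.smul_apply, Matrix.of_apply]
      congr 1
    rw [← h4]
    exact h1
  choose q hq using hdvd
  have hNq : N = (X : F[X]) ^ D • Matrix.of q := by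
    ext1 i j
    rw [Matrix.smul_apply, Matrix.of_apply, smul_eq_mul]
    exact hq i j
  have hsyl := sylvester M11 M12 M21 M22
  rw [← hN, hNq, Matrix.det_smul, Fintype.card_fin, ← pow_mul, ← hpen] at hsyl
  have h5 : (X : F[X]) ^ (D * k) ∣ pen (G G0) (G H0) * M11.det ^ k := by
    rw [hsyl]
    exact ⟨M11.det * (Matrix.of q).det, by ring⟩
  have h6 : (X : F[X]) ^ (D * k) ∣ pen (G G0) (G H0) :=
    Polynomial.prime_X.pow_dvd_of_dvd_mul_right _ (fun h => hXd (Polynomial.prime_X.dvd_of_dvd_pow h))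
      h5
  have h7 := Polynomial.natDegree_le_of_dvd h6 hne
  rw [Polynomial.natDegree_X_pow] at h7
  omega

/-- Improving directions: if `G + L y₀` has rank at least `k` above the rank `s` of `G`, then a
nonzero form of degree `D`, `D k ≤ s + k`, in the span of the minors of a compression of `L` to
size `s + 1` detects directions which increase the rank. -/
theorem improve [CharZero F] (G0 : Matrix ι ι F) (L : V →ₗ[F] Matrix ι ι F) (y0 : V) (s k : ℕ)
    (hs : G0.rank = s) (hk : 1 ≤ k) (hx : s + k ≤ (G0 + L y0).rank) :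
    ∃ (P : Matrix (Fin (s + 1)) ι F) (Q : Matrix ι (Fin (s + 1)) F) (D : ℕ),
      1 ≤ D ∧ D * k ≤ s + k ∧ ∃ g ∈ minors (comp L P Q) D, g ≠ 0 ∧
        ∀ y, g y ≠ 0 → ∃ t : ℕ, 1 ≤ t ∧ t ≤ s + 1 ∧ s < (G0 + (t : F) • L y).rank := by
  classical
  have hev : ∀ (P : Matrix (Fin (s + 1)) ι F) (Q : Matrix ι (Fin (s + 1)) F) (y : V) (t : F),
      (pen (P * G0 * Q) (P * L y * Q)).eval t = (P * (G0 + t • L y) * Q).det := by
    intro P Q y t
    rw [pen_eval, Matrix.mul_add, Matrix.add_mul, Matrix.mul_smul, Matrix.smul_mul]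
  have hex : ∃ j, ∃ (P : Matrix (Fin (s + 1)) ι F) (Q : Matrix ι (Fin (s + 1)) F),
      (fun y => (pen (P * G0 * Q) (P * L y * Q)).coeff j) ≠ 0 := by
    obtain ⟨P, Q, h⟩ := exists_minor_of_le_rank (G0 + L y0) (s + 1) (by omega)
    have h1 : pen (P * G0 * Q) (P * L y0 * Q) ≠ 0 := by
      intro h2
      have h3 := hev P Q y0 1
      rw [h2, Polynomial.eval_zero, one_smul] at h3
      exact h h3.symm
    obtain ⟨j, hj⟩ : ∃ j, (pen (P * G0 * Q) (P * L y0 * Q)).coeff j ≠ 0 := by
      by_contra hcon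
      push Not at hcon
      exact h1 (Polynomial.ext fun j => by rw [hcon j, Polynomial.coeff_zero])
    exact ⟨j, P, Q, fun h4 => hj (congrFun h4 y0)⟩
  obtain ⟨P, Q, hD⟩ := Nat.find_spec hex
  have hmin : ∀ j < Nat.find hex, ∀ (P : Matrix (Fin (s + 1)) ι F)
      (Q : Matrix ι (Fin (s + 1)) F) (y : V), (pen (P * G0 * Q) (P * L y * Q)).coeff j = 0 := by
    intro j hj P Q y
    by_contra h
    exact Nat.find_min hex hj ⟨P, Q, fun h1 => h (congrFun h1 y)⟩
  have hzero : ∀ (P : Matrix (Fin (s + 1)) ι F) (Q : Matrix ι (Fin (s + 1)) F),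
      (P * G0 * Q).det = 0 := by
    intro P Q
    by_contra h
    have := le_rank_of_minor G0 (s + 1) P Q h
    omega
  have hD1 : 1 ≤ Nat.find hex := by
    by_contra h
    have h0 : Nat.find hex = 0 := by omega
    apply hD
    funext y
    rw [h0]
    simp only [pen_coeff_zero, hzero]
    rfl
  have hDk := degree_bound G0 (L y0) s k hs.ge hx (Nat.find hex)
    (fun j hj P Q => hmin j hj P Q _)
  refine ⟨P, Q, Nat.find hex, hD1, hDk, _, ?_, hD, ?_⟩
  · refine coeff_mem (P * G0 * Q) (comp L P Q) (Nat.find hex) ?_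
    by_contra hcon
    push Not at hcon
    have h1 : (s + 2) * k ≤ Nat.find hex * k := Nat.mul_le_mul_right _ hcon
    nlinarith
  · intro y hy
    have hpne : pen (P * G0 * Q) (P * L y * Q) ≠ 0 := by
      intro h
      apply hy
      simp only [h, Polynomial.coeff_zero]
    by_contra hcon
    push Not at hcon
    apply hpne
    apply Polynomial.eq_zero_of_natDegree_lt_card_of_eval_eq_zero' _
      ((Finset.range (s + 2)).map ⟨fun n : ℕ => (n : F), Nat.cast_injective⟩)
    · intro t ht
      obtain ⟨n, hn, rfl⟩ := Finset.mem_map.mp ht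
      have hn' := Finset.mem_range.mp hn
      rw [Function.Embedding.coeFn_mk, hev]
      rcases Nat.eq_zero_or_pos n with h0 | h0
      · rw [h0, Nat.cast_zero, zero_smul, add_zero]
        exact hzero P Q
      · by_contra h2
        have h3 := le_rank_of_minor _ _ P Q h2
        have h4 := hcon n h0 (by omega)
        omega
    · rw [Finset.card_map, Finset.card_range]
      refine lt_of_le_of_lt (pen_natDegree _ _) ?_
      rw [Fintype.card_fin]
      omega

end main

end Pool.Agent.Lib.MP_64d474_lc.BB91
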