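import Mathlib
import Pool.Agent.Lib.MP_64d474_lc.BB.Improve3

/-!
Improving directions, all compressions padded to a common size `r`.
-/

namespace Pool.Agent.Lib.MP_64d474_lc.BB91

open Matrix

variable {F : Type*} [Field F] {V : Type*} [AddCommGroup V] [Module F V] {ι : Type*} [Fintype ι]

theorem minors_le_of_submatrix {N N' : ℕ} (A : V →ₗ[F] Matrix (Fin N) (Fin N) F)
    (A' : V →ₗ[F] Matrix (Fin N') (Fin N') F) (e : Fin N' → Fin N)
    (h : ∀ v, A' v = (A v).submatrix e e) (D : ℕ) : minors A' D ≤ minors A D := by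
  refine Submodule.span_le.mpr ?_
  rintro _ ⟨⟨R, C⟩, rfl⟩
  have h1 : (fun x => ((A' x).submatrix R C).det) =
      fun x => ((A x).submatrix (e ∘ R) (e ∘ C)).det := by
    funext x
    rw [h, Matrix.submatrix_submatrix]
  change (fun x => ((A' x).submatrix R C).det) ∈ minors A D
  rw [h1]
  exact minor_mem A D _ _

/-- Improving directions with compressions of size `r`, `s < r`. -/
theorem improve_pad [CharZero F] (G0 : Matrix ι ι F) (L : V →ₗ[F] Matrix ι ι F) (y0 : V)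
    (r g : ℕ) (hg : 1 ≤ g) (hs : G0.rank + g ≤ min r (G0 + L y0).rank) :
    ∃ (P : Matrix (Fin r) ι F) (Q : Matrix ι (Fin r) F) (D : ℕ),
      1 ≤ D ∧ D * g ≤ r ∧ ∃ f ∈ minors (comp L P Q) D, f ≠ 0 ∧
        ∀ y, f y ≠ 0 → ∃ t : ℕ, 1 ≤ t ∧ t ≤ r ∧ G0.rank < (G0 + (t : F) • L y).rank := by
  classical
  have hr : G0.rank + g ≤ r := hs.trans (min_le_left _ _)
  have hx : G0.rank + g ≤ (G0 + L y0).rank := hs.trans (min_le_right _ _)
  obtain ⟨k, hk, hkg, hkr⟩ : ∃ k, G0.rank + k ≤ (G0 + L y0).rank ∧ g ≤ k ∧ G0.rank + k ≤ r :=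
    ⟨g, hx, le_rfl, hr⟩
  obtain ⟨P, Q, D, hD1, hDk, f, hf, hf0, himp⟩ :=
    improve G0 L y0 G0.rank k rfl (by omega) hk
  have hsr : G0.rank + 1 ≤ r := by omega
  let e : Fin (G0.rank + 1) → Fin r := Fin.castLE hsr
  let P' : Matrix (Fin r) ι F := Matrix.of fun i a =>
    if h : (i : ℕ) < G0.rank + 1 then P ⟨i, h⟩ a else 0
  let Q' : Matrix ι (Fin r) F := Matrix.of fun a i =>
    if h : (i : ℕ) < G0.rank + 1 then Q a ⟨i, h⟩ else 0
  have hP : ∀ i a, P' (e i) a = P i a := by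
    intro i a
    have h1 : ((e i : Fin r) : ℕ) < G0.rank + 1 := i.2
    simp only [P', Matrix.of_apply, dif_pos h1]
    rfl
  have hQ : ∀ a i, Q' a (e i) = Q a i := by
    intro a i
    have h1 : ((e i : Fin r) : ℕ) < G0.rank + 1 := i.2
    simp only [Q', Matrix.of_apply, dif_pos h1]
    rfl
  refine ⟨P', Q', D, hD1, ?_, f, ?_, hf0, ?_⟩
  · calc D * g ≤ D * k := Nat.mul_le_mul_left _ hkg
      _ ≤ G0.rank + k := hDk
      _ ≤ r := hkr
  · refine minors_le_of_submatrix (comp L P' Q') (comp L P Q) e (fun v => ?_) D hf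
    ext i j
    simp only [comp_apply, Matrix.submatrix_apply, Matrix.mul_apply, hP, hQ]
  · intro y hy
    obtain ⟨t, ht1, hts, hlt⟩ := himp y hy
    exact ⟨t, ht1, by omega, hlt⟩

end Pool.Agent.Lib.MP_64d474_lc.BB91
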