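import Mathlib
import Pool.Agent.Lib.MP_64d474_lc.BB.Pad3
import Pool.Agent.Lib.MP_64d474_lc.BB91.Main

/-!
Improving directions on the curve: an explicit finite set of vectors with natural number entries,
independent of the matrices and of their size, such that every point whose rank is at least `g`
below `min (r, rank)` is improved by one of them.
-/

namespace Pool.Agent.Lib.MP_64d474_lc.BB91

open Matrix Polynomial

variable {F : Type*} [Field F]

theorem comp_lin {m n r : ℕ} (B : Fin m → Matrix (Fin n) (Fin n) F)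
    (P : Matrix (Fin r) (Fin n) F) (Q : Matrix (Fin n) (Fin r) F) :
    comp (lin B) P Q = lin (fun k => P * B k * Q) := by
  apply LinearMap.ext
  intro y
  rw [comp_apply, lin_apply, lin_apply, Matrix.mul_sum, Matrix.sum_mul]
  refine Finset.sum_congr rfl fun k _ => ?_
  rw [Matrix.mul_smul, Matrix.smul_mul]

theorem shift_lin {m n : ℕ} (B₀ : Matrix (Fin n) (Fin n) F)
    (B : Fin m → Matrix (Fin n) (Fin n) F) (c y : Fin m → F) :
    B₀ + ∑ k, (c k + y k) • B k = (B₀ + ∑ k, c k • B k) + lin B y := by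
  rw [lin_apply, add_assoc, ← Finset.sum_add_distrib]
  congr 1
  refine Finset.sum_congr rfl fun k _ => add_smul _ _ _

/-- All but `exc m r D` points of the curve improve, for some `D ≤ r / g`. -/
theorem improve_curve [CharZero F] {m n r g : ℕ} (hg : 1 ≤ g) (B₀ : Matrix (Fin n) (Fin n) F)
    (B : Fin m → Matrix (Fin n) (Fin n) F) (c x : Fin m → F)
    (hc : (B₀ + ∑ k, c k • B k).rank + g ≤ min r (B₀ + ∑ k, x k • B k).rank) :
    ∃ D, 1 ≤ D ∧ D * g ≤ r ∧ ∃ E : Finset F, E.card ≤ exc m r D ∧ ∀ z ∉ E,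
      ∃ t : ℕ, 1 ≤ t ∧ t ≤ r ∧ (B₀ + ∑ k, c k • B k).rank <
        (B₀ + ∑ k, (c k + (t : F) * curve F m r D z k) • B k).rank := by
  classical
  have hx : (B₀ + ∑ k, x k • B k) = (B₀ + ∑ k, c k • B k) + lin B (x - c) := by
    rw [← shift_lin]
    simp
  rw [hx] at hc
  obtain ⟨P, Q, D, hD1, hDg, f, hf, hf0, himp⟩ := improve_pad _ (lin B) (x - c) r g hg hc
  rw [comp_lin] at hf
  obtain ⟨p, hp, hdeg, heval⟩ := curve_hits _ D hD1
    (le_trans (Nat.le_mul_of_pos_right D hg) hDg) f hf hf0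
  refine ⟨D, hD1, hDg, p.roots.toFinset,
    (Multiset.toFinset_card_le _).trans ((card_roots' p).trans hdeg), fun z hz => ?_⟩
  have hz' : f (curve F m r D z) ≠ 0 := by
    rw [← heval z]
    intro h0
    exact hz (Multiset.mem_toFinset.mpr ((mem_roots hp).mpr h0))
  obtain ⟨t, ht1, htr, hlt⟩ := himp _ hz'
  refine ⟨t, ht1, htr, ?_⟩
  have h1 := shift_lin B₀ B c ((t : F) • curve F m r D z)
  rw [map_smul] at h1
  rw [← h1] at hlt
  exact hlt

/-- The steps: all `t c_D(z)` with `1 ≤ t ≤ r`, `1 ≤ D ≤ r / g`, `z ≤ exc m r D`. -/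
def steps (m r g : ℕ) : Finset (Fin m → ℕ) :=
  (Finset.Icc 1 (r / g)).biUnion fun D =>
    (Finset.Icc 1 r ×ˢ Finset.range (exc m r D + 1)).image fun p =>
      fun k => p.1 * curve ℕ m r D p.2 k

/-- **Improving sets.** -/
theorem steps_spec [CharZero F] {m n r g : ℕ} (hg : 1 ≤ g) (B₀ : Matrix (Fin n) (Fin n) F)
    (B : Fin m → Matrix (Fin n) (Fin n) F) (c x : Fin m → F)
    (hc : (B₀ + ∑ k, c k • B k).rank + g ≤ min r (B₀ + ∑ k, x k • B k).rank) :
    ∃ h ∈ steps m r g,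
      (B₀ + ∑ k, c k • B k).rank < (B₀ + ∑ k, (c k + (h k : F)) • B k).rank := by
  classical
  obtain ⟨D, hD1, hDg, E, hE, himp⟩ := improve_curve hg B₀ B c x hc
  obtain ⟨z, hz, hzE⟩ : ∃ z ∈ (Finset.range (exc m r D + 1)).image (Nat.cast : ℕ → F),
      z ∉ E := by
    apply Finset.exists_mem_notMem_of_card_lt_card
    rw [Finset.card_image_of_injective _ Nat.cast_injective, Finset.card_range]
    omega
  obtain ⟨w, hw, rfl⟩ := Finset.mem_image.mp hz
  obtain ⟨t, ht1, htr, hlt⟩ := himp _ hzE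
  refine ⟨fun k => t * curve ℕ m r D w k, ?_, ?_⟩
  · refine Finset.mem_biUnion.mpr ⟨D, Finset.mem_Icc.mpr
      ⟨hD1, (Nat.le_div_iff_mul_le hg).mpr hDg⟩, ?_⟩
    exact Finset.mem_image.mpr ⟨(t, w), Finset.mem_product.mpr
      ⟨Finset.mem_Icc.mpr ⟨ht1, htr⟩, hw⟩, rfl⟩
  · have h1 : ∀ k, (((t * curve ℕ m r D w k : ℕ) : F)) = (t : F) * curve F m r D (w : F) k := by
      intro k
      rw [Nat.cast_mul, curve_cast]
    simp only [h1]
    exact hlt

/-- Greedy search: at most `r` steps from the origin reach a point whose rank is less than `g`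
below `min (r, rank)`. -/
theorem steps_greedy [CharZero F] {m n r g : ℕ} (hg : 1 ≤ g) (B₀ : Matrix (Fin n) (Fin n) F)
    (B : Fin m → Matrix (Fin n) (Fin n) F) :
    ∃ l : List (Fin m → ℕ), l.length ≤ r ∧ (∀ h ∈ l, h ∈ steps m r g) ∧
      ∀ x : Fin m → F, min r (B₀ + ∑ k, x k • B k).rank <
        (B₀ + ∑ k, ((l.sum k : ℕ) : F) • B k).rank + g := by
  have key : ∀ (d : ℕ) (l : List (Fin m → ℕ)), (∀ h ∈ l, h ∈ steps m r g) →
      r < (B₀ + ∑ k, ((l.sum k : ℕ) : F) • B k).rank + g + d →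
      ∃ l' : List (Fin m → ℕ), l'.length ≤ l.length + d ∧ (∀ h ∈ l', h ∈ steps m r g) ∧
        ∀ x : Fin m → F, min r (B₀ + ∑ k, x k • B k).rank <
          (B₀ + ∑ k, ((l'.sum k : ℕ) : F) • B k).rank + g := by
    intro d
    induction d with
    | zero => exact fun l hl h => ⟨l, by omega, hl, fun x => lt_of_le_of_lt (min_le_left _ _) h⟩
    | succ d ih =>
      intro l hl h
      by_cases hcase : ∀ x : Fin m → F, min r (B₀ + ∑ k, x k • B k).rank <
          (B₀ + ∑ k, ((l.sum k : ℕ) : F) • B k).rank + g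
      · exact ⟨l, by omega, hl, hcase⟩
      · push Not at hcase
        obtain ⟨x, hx⟩ := hcase
        obtain ⟨v, hv, hlt⟩ := steps_spec hg B₀ B (fun k => ((l.sum k : ℕ) : F)) x hx
        have hsum : (B₀ + ∑ k, (((v :: l).sum k : ℕ) : F) • B k) =
            B₀ + ∑ k, (((l.sum k : ℕ) : F) + (v k : F)) • B k := by
          refine congrArg _ (Finset.sum_congr rfl fun k _ => ?_)
          rw [List.sum_cons, Pi.add_apply, Nat.cast_add, add_comm]
        obtain ⟨l', h1, h2, h3⟩ := ih (v :: l)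
          (fun w hw => by
            rcases List.mem_cons.mp hw with rfl | hw
            · exact hv
            · exact hl w hw)
          (by rw [hsum]; omega)
        exact ⟨l', by rw [List.length_cons] at h1; omega, h2, h3⟩
  obtain ⟨l, h1, h2, h3⟩ := key r [] (by simp) (by omega)
  exact ⟨l, by simpa using h1, h2, h3⟩

/-! ### The number of steps -/

theorem pow_le_rpow_aux {r g D C : ℕ} (hg : 1 ≤ g) (hD : 1 ≤ D) (hDg : D * g ≤ r) :
    (8 * (r : ℝ) / D) ^ (C * D) ≤ (8 * (g : ℝ)) ^ ((C : ℝ) * r / g) := by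
  have hD0 : (0 : ℝ) < D := by exact_mod_cast hD
  have hg0 : (0 : ℝ) < g := by exact_mod_cast hg
  have hr : 1 ≤ r := le_trans (Nat.mul_le_mul hD hg) hDg
  have hr0 : (0 : ℝ) < r := by exact_mod_cast hr
  have hg1 : (1 : ℝ) ≤ g := by exact_mod_cast hg
  have h1 : (D : ℝ) ≤ r / g := by
    rw [le_div_iff₀ hg0]
    exact_mod_cast hDg
  have h2 := psi_mono (N := (r : ℝ)) hD0 h1 (div_le_self hr0.le hg1)
  unfold psi at h2
  have h3 : 8 * (r : ℝ) / (r / g) = 8 * g := by field_simp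
  rw [h3] at h2
  rw [← Real.rpow_natCast, Real.rpow_def_of_pos (by positivity),
    Real.rpow_def_of_pos (by positivity)]
  apply Real.exp_le_exp.mpr
  push_cast
  have hC : (0 : ℝ) ≤ C := by positivity
  calc Real.log (8 * (r : ℝ) / D) * (C * D) = C * (D * Real.log (8 * (r : ℝ) / D)) := by ring
    _ ≤ C * (r / g * Real.log (8 * (g : ℝ))) := mul_le_mul_of_nonneg_left h2 hC
    _ = Real.log (8 * (g : ℝ)) * (C * r / g) := by ring

/-- At most `(m + 1) r ^ 2 (8 g) ^ (8 r / g)` steps. -/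
theorem steps_card (m r g : ℕ) (hg : 1 ≤ g) :
    ((steps m r g).card : ℝ) ≤ ((m : ℝ) + 1) * (r : ℝ) ^ 2 * (8 * (g : ℝ)) ^ (8 * (r : ℝ) / g) := by
  classical
  have h1 : (steps m r g).card ≤ ∑ D ∈ Finset.Icc 1 (r / g), r * (exc m r D + 1) := by
    refine Finset.card_biUnion_le.trans (Finset.sum_le_sum fun D _ => ?_)
    refine Finset.card_image_le.trans ?_
    rw [Finset.card_product, Nat.card_Icc, Finset.card_range]
    simp
  have h2 : (∑ D ∈ Finset.Icc 1 (r / g), ((r : ℝ) * ((exc m r D : ℝ) + 1))) ≤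
      ∑ _D ∈ Finset.Icc 1 (r / g),
        (r : ℝ) * (((m : ℝ) + 1) * (8 * (g : ℝ)) ^ (8 * (r : ℝ) / g)) := by
    refine Finset.sum_le_sum fun D hD => ?_
    obtain ⟨hD1, hD2⟩ := Finset.mem_Icc.mp hD
    have hDg : D * g ≤ r := (Nat.le_div_iff_mul_le hg).mp hD2
    have hDr : D ≤ r := le_trans (Nat.le_mul_of_pos_right D hg) hDg
    refine mul_le_mul_of_nonneg_left ((exc_le m r D hD1 hDr).trans ?_) (by positivity)
    have h5 := pow_le_rpow_aux (C := 8) hg hD1 hDg
    norm_num at h5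
    exact mul_le_mul_of_nonneg_left h5 (by positivity)
  rw [Finset.sum_const, Nat.card_Icc, Nat.add_sub_cancel, nsmul_eq_mul] at h2
  have h3 : ((steps m r g).card : ℝ) ≤
      ∑ D ∈ Finset.Icc 1 (r / g), ((r : ℝ) * ((exc m r D : ℝ) + 1)) := by
    exact_mod_cast h1
  refine h3.trans (h2.trans ?_)
  have h4 : ((r / g : ℕ) : ℝ) ≤ r := by exact_mod_cast Nat.div_le_self r g
  calc ((r / g : ℕ) : ℝ) * ((r : ℝ) * (((m : ℝ) + 1) * (8 * (g : ℝ)) ^ (8 * (r : ℝ) / g)))
      ≤ (r : ℝ) * ((r : ℝ) * (((m : ℝ) + 1) * (8 * (g : ℝ)) ^ (8 * (r : ℝ) / g))) :=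
        mul_le_mul_of_nonneg_right h4 (by positivity)
    _ = _ := by ring

end Pool.Agent.Lib.MP_64d474_lc.BB91
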